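import Pool.Agent.KTB.StmtsKA

set_option autoImplicit false

/-!
# KTB, row PRA: the elements of the negative ray are paired by clean coordinates (helper85)
-/

namespace Pool.Agent.KTB.H85

open Finset
open scoped Classical

theorem clean_symm {ι T : Type} [Fintype ι] {D : Dat ι T} {S : Finset ι} {k : T} {y y' : ι}
    (h : D.Clean S k y y') : D.Clean S k y' y :=
  ⟨h.2.1, h.1, h.2.2.1.symm, h.2.2.2.2.1, h.2.2.2.1, fun b hb h1 h2 => h.2.2.2.2.2 b hb h2 h1⟩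

/-- the partner map of a perfect matching of `N (S \ R)`. -/
theorem partner (idn : IdnStmt) {ι T : Type} [Fintype ι] (D : Dat ι T) (S R : Finset ι)
    (p : ι → ℚ) (s : (ι → ℚ) →ₗ[ℚ] ℚ) (M : Finset T) (hRS : R ⊆ S) (hp : ∀ r ∈ R, 0 < p r)
    (hs : ∀ ρ ∈ D.R S, ∀ r ∈ R, ρ r = p r * s ρ)
    (hM : D.PM (S \ R) (D.N (S \ R)) M) :
    ∃ π : ι → ι, Set.InjOn π (D.N (S \ R) : Set ι) ∧ ∀ y ∈ D.N (S \ R), ∃ k ∈ M, π y ∈ S ∧
      ∃ θ : ℚ, 0 ≤ θ ∧ (∀ ρ ∈ D.R S, ρ (π y) = - ρ y - θ * s ρ) ∧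
        (θ = 0 → D.Clean S k y (π y)) := by
  have h1 : ∀ y ∈ D.N (S \ R), ∃ k z, k ∈ M ∧ z ∈ D.N (S \ R) ∧ D.Clean (S \ R) k y z := by
    intro y hy
    obtain ⟨k, ⟨hk, hky⟩, -⟩ := hM.2 y hy
    obtain ⟨z, hz, z', hz', hc⟩ := hM.1 k hk
    have hyS : y ∈ S \ R := (Finset.mem_filter.mp hy).1
    by_cases e1 : y = z
    · subst e1
      exact ⟨k, z', hk, hz', hc⟩
    by_cases e2 : y = z'
    · subst e2
      exact ⟨k, z, hk, hz, clean_symm hc⟩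
    exact absurd (hc.2.2.2.2.2 y hyS e1 e2) hky
  have h2 : ∀ y : ι, ∃ z : ι, y ∈ D.N (S \ R) → ∃ k, k ∈ M ∧ z ∈ D.N (S \ R) ∧
      D.Clean (S \ R) k y z := by
    intro y
    by_cases hy : y ∈ D.N (S \ R)
    · obtain ⟨k, z, h⟩ := h1 y hy
      exact ⟨z, fun _ => ⟨k, h⟩⟩
    · exact ⟨y, fun h => absurd h hy⟩
  choose π hπ using h2
  refine ⟨π, ?_, ?_⟩
  · intro a ha b hb hab
    have ha' : a ∈ D.N (S \ R) := by exact_mod_cast ha
    have hb' : b ∈ D.N (S \ R) := by exact_mod_cast hb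
    obtain ⟨k, hk, hz, hc⟩ := hπ a ha'
    obtain ⟨k', hk', hz', hc'⟩ := hπ b hb'
    have e : k = k' := by
      refine (hM.2 (π a) hz).unique ⟨hk, ?_⟩ ⟨hk', ?_⟩
      · rw [hc.2.2.2.2.1]
        exact one_ne_zero
      · rw [hab, hc'.2.2.2.2.1]
        exact one_ne_zero
    subst e
    by_contra hne
    have h3 : D.x k b = 0 := by
      refine hc.2.2.2.2.2 b hc'.1 (fun h => hne h.symm) ?_
      rw [hab]
      exact hc'.2.2.1
    rw [hc'.2.2.2.1] at h3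
    exact one_ne_zero h3
  · intro y hy
    obtain ⟨k, hk, hz, hc⟩ := hπ y hy
    have hyS := hc.1
    have hzS := hc.2.1
    refine ⟨k, hk, (Finset.mem_sdiff.mp hzS).1, ∑ r ∈ R, (D.x k r : ℚ) * p r, ?_, ?_, ?_⟩
    · exact Finset.sum_nonneg fun r hr => mul_nonneg (Nat.cast_nonneg _) (hp r hr).le
    · intro ρ hρ
      have h3 := (idn ι T D S).2.1 ρ hρ k
      rw [← Finset.sum_sdiff hRS] at h3
      have h4 : ∑ a ∈ S \ R, (D.x k a : ℚ) * ρ a = ρ y + ρ (π y) := by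
        rw [Finset.sum_eq_add y (π y) hc.2.2.1]
        · rw [hc.2.2.2.1, hc.2.2.2.2.1]
          simp
        · intro c hcS hne
          rw [hc.2.2.2.2.2 c hcS hne.1 hne.2]
          simp
        · intro h
          exact absurd hyS h
        · intro h
          exact absurd hzS h
      have h5 : ∑ a ∈ R, (D.x k a : ℚ) * ρ a = (∑ r ∈ R, (D.x k r : ℚ) * p r) * s ρ := by
        rw [Finset.sum_mul]
        refine Finset.sum_congr rfl fun r hr => ?_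
        rw [hs ρ hρ r hr]
        ring
      rw [h4, h5] at h3
      linarith
    · intro h0
      refine ⟨(Finset.mem_sdiff.mp hyS).1, (Finset.mem_sdiff.mp hzS).1, hc.2.2.1, hc.2.2.2.1,
        hc.2.2.2.2.1, ?_⟩
      intro b hb hb1 hb2
      by_cases hbR : b ∈ R
      · have h3 := (Finset.sum_eq_zero_iff_of_nonneg
          (fun r hr => mul_nonneg (Nat.cast_nonneg (D.x k r)) (hp r hr).le)).mp h0 b hbR
        have h4 : (D.x k b : ℚ) = 0 := by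
          rcases mul_eq_zero.mp h3 with h | h
          · exact h
          · exact absurd h (hp b hbR).ne'
        exact_mod_cast h4
      · exact hc.2.2.2.2.2 b (Finset.mem_sdiff.mpr ⟨hb, hbR⟩) hb1 hb2

theorem surj_of {ι : Type} (A B : Finset ι) (f g : ι → ι) (hf : ∀ a ∈ A, f a ∈ B)
    (hg : ∀ b ∈ B, g b ∈ A) (jf : Set.InjOn f (A : Set ι)) (jg : Set.InjOn g (B : Set ι)) :
    ∀ b ∈ B, ∃ a ∈ A, f a = b := by
  have h1 : B.card ≤ A.card := Finset.card_le_card_of_injOn g hg jg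
  have h2 := Finset.surjOn_of_injOn_of_card_le f (fun a ha => hf a (by exact_mod_cast ha)) jf h1
  intro b hb
  obtain ⟨a, ha, hab⟩ := h2 (show b ∈ (B : Set ι) by exact_mod_cast hb)
  exact ⟨a, by exact_mod_cast ha, hab⟩

theorem pra (idn : IdnStmt) (ray : RayStmt) : PraStmt := by
  intro ι T _ D S Ra Rb pa pb fa fb Ma Mb hVa hVb hMa hMb hab hba t ht W hW
  obtain ⟨hRa, hraya, hLa⟩ := hVa
  obtain ⟨hRb, hrayb, hLb⟩ := hVb
  obtain ⟨-, ⟨sa, hsa, -, -, hka⟩, -⟩ := ray ι T D S Ra pa fa hraya hRa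
  obtain ⟨-, ⟨sb, hsb, -, -, hkb⟩, -⟩ := ray ι T D S Rb pb fb hrayb hRb
  have hmono : ∀ (R : Finset ι) (ρ : ι → ℚ), ρ ∈ D.R (S \ R) → ρ ∈ D.R S := by
    intro R ρ hρ
    exact ⟨hρ.1, fun a ha => hρ.2 a fun h => ha (Finset.mem_sdiff.mp h).1⟩
  -- the two test relations
  obtain ⟨w, hw, hwa, hwb⟩ : ∃ w ∈ D.R S, sa w = 0 ∧ sb w ≠ 0 := by
    obtain ⟨ρ, hρ, r, hr, hne⟩ := hab
    have h1 := hmono Ra ρ hρ
    refine ⟨ρ, h1, (hka ρ h1).mp hρ, ?_⟩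
    intro h0
    apply hne
    rw [hsb ρ h1 r hr, h0, mul_zero]
  obtain ⟨u, hu, hub, hua⟩ : ∃ u ∈ D.R S, sb u = 0 ∧ sa u ≠ 0 := by
    obtain ⟨ρ, hρ, r, hr, hne⟩ := hba
    have h1 := hmono Rb ρ hρ
    refine ⟨ρ, h1, (hkb ρ h1).mp hρ, ?_⟩
    intro h0
    apply hne
    rw [hsa ρ h1 r hr, h0, mul_zero]
  -- membership in N
  have hNa : ∀ (y : ι) (α β : ℚ), y ∈ S → β ≠ 0 →
      (∀ ρ ∈ D.R S, ρ y = α * sa ρ + β * sb ρ) → y ∈ D.N (S \ Ra) := by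
    intro y α β hy hβ hform
    have h1 : w y ≠ 0 := by
      rw [hform w hw, hwa, mul_zero, zero_add]
      exact mul_ne_zero hβ hwb
    have h2 : y ∉ Ra := by
      intro h
      apply h1
      rw [hsa w hw y h, hwa, mul_zero]
    exact Finset.mem_filter.mpr ⟨Finset.mem_sdiff.mpr ⟨hy, h2⟩, w, (hka w hw).mpr hwa, h1⟩
  have hNb : ∀ (y : ι) (α β : ℚ), y ∈ S → α ≠ 0 →
      (∀ ρ ∈ D.R S, ρ y = α * sa ρ + β * sb ρ) → y ∈ D.N (S \ Rb) := by
    intro y α β hy hα hform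
    have h1 : u y ≠ 0 := by
      rw [hform u hu, hub, mul_zero, add_zero]
      exact mul_ne_zero hα hua
    have h2 : y ∉ Rb := by
      intro h
      apply h1
      rw [hsb u hu y h, hub, mul_zero]
    exact Finset.mem_filter.mpr ⟨Finset.mem_sdiff.mpr ⟨hy, h2⟩, u, (hkb u hu).mpr hub, h1⟩
  obtain ⟨πa, ja, ha⟩ := partner idn D S Ra pa sa Ma hraya.1 (fun r hr => (hraya.2.1 r hr).1)
    hsa hMa
  obtain ⟨πb, jb, hb⟩ := partner idn D S Rb pb sb Mb hrayb.1 (fun r hr => (hrayb.2.1 r hr).1)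
    hsb hMb
  let A : Finset ι := S.filter fun y => ∃ α β : ℚ, 0 < α ∧ 0 < β ∧
    ∀ ρ ∈ D.R S, ρ y = α * sa ρ + (-β) * sb ρ
  let B : Finset ι := S.filter fun y => ∃ α β : ℚ, 0 < α ∧ 0 < β ∧
    ∀ ρ ∈ D.R S, ρ y = (-α) * sa ρ + β * sb ρ
  have hAN : ∀ y ∈ A, y ∈ D.N (S \ Ra) := by
    intro y hy
    obtain ⟨hyS, α, β, hα, hβ, hform⟩ := Finset.mem_filter.mp hy
    exact hNa y α (-β) hyS (neg_ne_zero.mpr hβ.ne') hform
  have hBN : ∀ y ∈ B, y ∈ D.N (S \ Rb) := by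
    intro y hy
    obtain ⟨hyS, α, β, hα, hβ, hform⟩ := Finset.mem_filter.mp hy
    exact hNb y (-α) β hyS (neg_ne_zero.mpr hα.ne') hform
  have hAB : ∀ y ∈ A, πa y ∈ B := by
    intro y hy
    obtain ⟨hyS, α, β, hα, hβ, hform⟩ := Finset.mem_filter.mp hy
    obtain ⟨k, hk, hS', θ, hθ, h1, -⟩ := ha y (hAN y hy)
    refine Finset.mem_filter.mpr ⟨hS', α + θ, β, by linarith, hβ, ?_⟩
    intro ρ hρ
    rw [h1 ρ hρ, hform ρ hρ]
    ring
  have hBA : ∀ y ∈ B, πb y ∈ A := by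
    intro y hy
    obtain ⟨hyS, α, β, hα, hβ, hform⟩ := Finset.mem_filter.mp hy
    obtain ⟨k, hk, hS', θ, hθ, h1, -⟩ := hb y (hBN y hy)
    refine Finset.mem_filter.mpr ⟨hS', α, β + θ, hα, by linarith, ?_⟩
    intro ρ hρ
    rw [h1 ρ hρ, hform ρ hρ]
    ring
  have jA : Set.InjOn πa (A : Set ι) := ja.mono fun y hy => by
    have := hAN y (by exact_mod_cast hy)
    exact_mod_cast this
  have jB : Set.InjOn πb (B : Set ι) := jb.mono fun y hy => by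
    have := hBN y (by exact_mod_cast hy)
    exact_mod_cast this
  have hsurj := surj_of A B πa πb hAB hBA jA jB
  -- the element W
  obtain ⟨hWS, c, hc, hWc⟩ := Finset.mem_filter.mp hW
  have hpt : 0 < pb t := (hrayb.2.1 t ht).1
  have hWf : ∀ ρ ∈ D.R S, ρ W = 0 * sa ρ + (-(c * pb t)) * sb ρ := by
    intro ρ hρ
    rw [hWc ρ hρ, hsb ρ hρ t ht]
    ring
  have hWN : W ∈ D.N (S \ Ra) :=
    hNa W 0 (-(c * pb t)) hWS (neg_ne_zero.mpr (mul_pos hc hpt).ne') hWf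
  obtain ⟨k, hk, hS', θ, hθ, h1, h2⟩ := ha W hWN
  have hθ0 : θ = 0 := by
    by_contra hne
    have hθp : 0 < θ := lt_of_le_of_ne hθ (Ne.symm hne)
    have hB : πa W ∈ B := by
      refine Finset.mem_filter.mpr ⟨hS', θ, c * pb t, hθp, mul_pos hc hpt, ?_⟩
      intro ρ hρ
      rw [h1 ρ hρ, hWf ρ hρ]
      ring
    obtain ⟨y, hy, hyW⟩ := hsurj _ hB
    have e : y = W := ja (by have := hAN y hy; exact_mod_cast this) (by exact_mod_cast hWN) hyW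
    subst e
    obtain ⟨-, α, β, hα, hβ, hform⟩ := Finset.mem_filter.mp hy
    have h3 := hform u hu
    rw [hWf u hu, hub] at h3
    have h4 : α * sa u = 0 := by linarith
    rcases mul_eq_zero.mp h4 with h | h
    · exact hα.ne' h
    · exact hua h
  refine ⟨k, hk, πa W, Finset.mem_filter.mpr ⟨hS', c, hc, ?_⟩, h2 hθ0⟩
  intro ρ hρ
  rw [h1 ρ hρ, hθ0, hWc ρ hρ]
  ring

end Pool.Agent.KTB.H85
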